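import Mathlib

set_option autoImplicit false

/-!
# Upper density of the indices of the sets that contain a point, almost everywhere
-/

namespace Pool.Agent.TH869.PM

open MeasureTheory Filter Set Topology

open Classical in
/-- the number of the sets among the first `K` that contain `x` -/
noncomputable def cnt (A : ℕ → Set ℝ) (K : ℕ) (x : ℝ) : ℕ :=
  Finset.card (Finset.filter (fun k => x ∈ A k) (Finset.range K))

theorem cnt_le (A : ℕ → Set ℝ) (K : ℕ) (x : ℝ) : cnt A K x ≤ K := by
  classical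
  unfold cnt
  exact (Finset.card_filter_le _ _).trans (Finset.card_range K).le

theorem cnt_eq (A : ℕ → Set ℝ) (K : ℕ) (x : ℝ) :
    (cnt A K x : ENNReal) = ∑ k ∈ Finset.range K, (A k).indicator 1 x := by
  classical
  unfold cnt
  rw [Finset.card_filter]
  push_cast
  refine Finset.sum_congr rfl fun k _ => ?_
  by_cases h : x ∈ A k
  · simp [h]
  · simp [h]

theorem cnt_lint (A : ℕ → Set ℝ) (hA : ∀ k, MeasurableSet (A k)) (K : ℕ) (J : Set ℝ) :
    ∫⁻ x in J, (cnt A K x : ENNReal) = ∑ k ∈ Finset.range K, volume (A k ∩ J) := by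
  have h : ∀ x, (cnt A K x : ENNReal) = ∑ k ∈ Finset.range K, (A k).indicator 1 x :=
    fun x => cnt_eq A K x
  simp only [h]
  rw [lintegral_finsetSum _ fun k _ => measurable_one.indicator (hA k)]
  refine Finset.sum_congr rfl fun k _ => ?_
  rw [lintegral_indicator_one (hA k), Measure.restrict_apply (hA k)]

theorem cnt_meas (A : ℕ → Set ℝ) (hA : ∀ k, MeasurableSet (A k)) (K : ℕ) :
    Measurable (fun x => (cnt A K x : ℝ)) := by
  classical
  have h : (fun x => (cnt A K x : ℝ)) =
      fun x => ∑ k ∈ Finset.range K, (A k).indicator (1 : ℝ → ℝ) x := by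
    funext x
    unfold cnt
    rw [Finset.card_filter]
    push_cast
    refine Finset.sum_congr rfl fun k _ => ?_
    by_cases h : x ∈ A k
    · simp [h]
    · simp [h]
  rw [h]
  exact Finset.measurable_sum _ fun k _ => measurable_one.indicator (hA k)

/-- the main inequality -/
theorem key (A : ℕ → Set ℝ) (hA : ∀ k, MeasurableSet (A k)) (K : ℕ) (J B : Set ℝ)
    (hJ : MeasurableSet J) (hB : MeasurableSet B) (s : ℝ) (hs : ∀ x ∈ B, (cnt A K x : ℝ) ≤ s) :
    ∑ k ∈ Finset.range K, volume (A k ∩ J) ≤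
      ENNReal.ofReal s * volume J + K * volume (J \ B) := by
  rw [← cnt_lint A hA K J, ← lintegral_inter_add_sdiff _ J hB]
  refine add_le_add ?_ ?_
  · have h1 : ∫⁻ x in J ∩ B, (cnt A K x : ENNReal) ≤ ∫⁻ x in J ∩ B, ENNReal.ofReal s := by
      refine setLIntegral_mono' (hJ.inter hB) ?_
      intro x hx
      have h2 := hs x hx.2
      rw [← ENNReal.ofReal_natCast]
      exact ENNReal.ofReal_le_ofReal h2
    refine h1.trans ?_
    rw [setLIntegral_const]
    gcongr
    exact inter_subset_left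
  · have h1 : ∫⁻ x in J \ B, (cnt A K x : ENNReal) ≤ ∫⁻ x in J \ B, (K : ENNReal) := by
      refine lintegral_mono fun x => ?_
      exact Nat.cast_le.mpr (cnt_le A K x)
    refine h1.trans ?_
    rw [setLIntegral_const]

/-- a point of density -/
theorem exists_density (B : Set ℝ) (hB : MeasurableSet B) (h0 : volume B ≠ 0) (η : ℝ) (hη : 0 < η)
    (hBpos : ∀ x ∈ B, 0 < x) :
    ∃ u v : ℝ, 0 < u ∧ u < v ∧ volume (Icc u v \ B) ≤ ENNReal.ofReal (η * (v - u)) := by
  have h1 := Besicovitch.ae_tendsto_measure_inter_div volume B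
  have h2 : ∀ᵐ x ∂(volume.restrict B), x ∈ B := ae_restrict_mem hB
  have hne : NeBot (ae (volume.restrict B)) := by
    rw [ae_neBot]
    intro h
    rw [Measure.restrict_eq_zero] at h
    exact h0 h
  obtain ⟨x, hx1, hx2⟩ := (h1.and h2).exists
  have hx0 := hBpos x hx2
  -- small radius
  have h3 : ∀ᶠ r in 𝓝[>] (0 : ℝ), ENNReal.ofReal (1 - η) <
      volume (B ∩ Metric.closedBall x r) / volume (Metric.closedBall x r) := by
    refine hx1.eventually (lt_mem_nhds ?_)
    rw [← ENNReal.ofReal_one]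
    exact (ENNReal.ofReal_lt_ofReal_iff one_pos).mpr (by linarith)
  have h4 : ∀ᶠ r in 𝓝[>] (0 : ℝ), r < x :=
    nhdsWithin_le_nhds (gt_mem_nhds hx0)
  have h5 : ∀ᶠ r in 𝓝[>] (0 : ℝ), 0 < r := self_mem_nhdsWithin
  obtain ⟨r, ⟨hr1, hr2⟩, hr3⟩ := ((h3.and h4).and h5).exists
  refine ⟨x - r, x + r, by linarith, by linarith, ?_⟩
  rw [Real.closedBall_eq_Icc] at hr1
  have hv : volume (Icc (x - r) (x + r)) = ENNReal.ofReal (2 * r) := by
    rw [Real.volume_Icc]; congr 1; ring
  have hvne : volume (Icc (x - r) (x + r)) ≠ ⊤ := by rw [hv]; exact ENNReal.ofReal_ne_top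
  have h6 : ENNReal.ofReal (1 - η) * ENNReal.ofReal (2 * r) ≤
      volume (B ∩ Icc (x - r) (x + r)) := by
    rw [ENNReal.lt_div_iff_mul_lt (Or.inl (by rw [hv]; simp; linarith)) (Or.inl hvne), hv] at hr1
    exact hr1.le
  have h7 : volume (Icc (x - r) (x + r) \ B) + volume (B ∩ Icc (x - r) (x + r)) =
      ENNReal.ofReal (2 * r) := by
    rw [← hv, inter_comm, add_comm]
    exact measure_inter_add_sdiff _ hB
  have h8 : volume (Icc (x - r) (x + r) \ B) ≤ ENNReal.ofReal (2 * r) -
      ENNReal.ofReal (1 - η) * ENNReal.ofReal (2 * r) := by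
    have h9 : volume (Icc (x - r) (x + r) \ B) +
        ENNReal.ofReal (1 - η) * ENNReal.ofReal (2 * r) ≤ ENNReal.ofReal (2 * r) := by
      calc _ ≤ volume (Icc (x - r) (x + r) \ B) + volume (B ∩ Icc (x - r) (x + r)) :=
            add_le_add le_rfl h6
        _ = _ := h7
    exact ENNReal.le_sub_of_add_le_right
      (ENNReal.mul_ne_top ENNReal.ofReal_ne_top ENNReal.ofReal_ne_top) h9
  refine h8.trans ?_
  rw [tsub_le_iff_right, ← ENNReal.ofReal_mul' (by linarith : (0 : ℝ) ≤ 2 * r)]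
  have e : x + r - (x - r) = 2 * r := by ring
  rw [e]
  rcases le_or_gt η 1 with h9 | h9
  · rw [← ENNReal.ofReal_add (by positivity) (by nlinarith)]
    exact ENNReal.ofReal_le_ofReal (by nlinarith)
  · refine le_trans (ENNReal.ofReal_le_ofReal (q := η * (2 * r)) (by nlinarith)) le_self_add

/-- **Sets of measure at least `c |J|` in every interval `J`: almost every point is in a set of
positive upper density of them.** -/
theorem ae_dense (A : ℕ → Set ℝ) (hA : ∀ k, MeasurableSet (A k)) (c : ℝ) (hc : 0 < c)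
    (h : ∀ u v : ℝ, 0 < u → u < v → ∀ᶠ k : ℕ in atTop,
      ENNReal.ofReal (c * (v - u)) ≤ volume (A k ∩ Icc u v)) :
    ∀ᵐ x ∂(volume : Measure ℝ), 0 < x → ∃ᶠ K : ℕ in atTop, c / 2 * K < cnt A K x := by
  -- the exceptional sets
  set B : ℕ → Set ℝ := fun K0 => {x | 0 < x ∧ ∀ K, K0 ≤ K → (cnt A K x : ℝ) ≤ c / 2 * K} with hBdef
  have hBm : ∀ K0, MeasurableSet (B K0) := by
    intro K0
    have e : B K0 = Ioi 0 ∩ ⋂ K : ℕ, ⋂ _ : K0 ≤ K, {x | (cnt A K x : ℝ) ≤ c / 2 * K} := by
      ext x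
      simp [hBdef]
    rw [e]
    refine measurableSet_Ioi.inter (MeasurableSet.iInter fun K => MeasurableSet.iInter fun _ => ?_)
    exact measurableSet_le (cnt_meas A hA K) measurable_const
  have hB0 : ∀ K0, volume (B K0) = 0 := by
    intro K0
    by_contra hne
    obtain ⟨u, v, hu, huv, hd⟩ := exists_density (B K0) (hBm K0) hne (c / 8) (by positivity)
      (fun x hx => hx.1)
    obtain ⟨k0, hk0⟩ := eventually_atTop.mp (h u v hu huv)
    set w : ℝ := v - u with hw
    have hw0 : 0 < w := by rw [hw]; linarith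
    -- choose K
    set K : ℕ := max K0 (4 * k0 + 4) with hK
    have hK1 : K0 ≤ K := le_max_left _ _
    have hK2 : 4 * k0 + 4 ≤ K := le_max_right _ _
    have h1 := key A hA K (Icc u v) (B K0) measurableSet_Icc (hBm K0) (c / 2 * K)
      (fun x hx => hx.2 K hK1)
    have h2 : ENNReal.ofReal (((K : ℝ) - k0) * (c * w)) ≤
        ∑ k ∈ Finset.range K, volume (A k ∩ Icc u v) := by
      have h3 : ∑ k ∈ Finset.Ico k0 K, ENNReal.ofReal (c * w) ≤
          ∑ k ∈ Finset.Ico k0 K, volume (A k ∩ Icc u v) :=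
        Finset.sum_le_sum fun k hk => hk0 k (Finset.mem_Ico.mp hk).1
      rw [Finset.sum_const, Nat.card_Ico, nsmul_eq_mul] at h3
      have h4 : ((K - k0 : ℕ) : ENNReal) * ENNReal.ofReal (c * w) =
          ENNReal.ofReal (((K : ℝ) - k0) * (c * w)) := by
        rw [← ENNReal.ofReal_natCast, ← ENNReal.ofReal_mul (Nat.cast_nonneg _),
          Nat.cast_sub (by omega)]
      rw [h4] at h3
      refine h3.trans (Finset.sum_le_sum_of_subset ?_)
      intro k hk
      rw [Finset.mem_Ico] at hk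
      exact Finset.mem_range.mpr hk.2
    have h5 := h2.trans h1
    rw [Real.volume_Icc, ← hw] at h5
    have hKr : (4 * (k0 : ℝ) + 4) ≤ K := by exact_mod_cast hK2
    have hk0r : (0 : ℝ) ≤ k0 := Nat.cast_nonneg _
    have h6 : ENNReal.ofReal (c / 2 * K) * ENNReal.ofReal w +
        (K : ENNReal) * volume (Icc u v \ B K0) ≤
        ENNReal.ofReal (c / 2 * K * w + K * (c / 8 * w)) := by
      rw [ENNReal.ofReal_add (by positivity) (by positivity)]
      refine add_le_add ?_ ?_
      · rw [← ENNReal.ofReal_mul (by positivity)]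
      · rw [ENNReal.ofReal_mul (Nat.cast_nonneg _), ENNReal.ofReal_natCast]
        gcongr
    have h7 := h5.trans h6
    rw [ENNReal.ofReal_le_ofReal_iff (by positivity)] at h7
    have h8 : ((K : ℝ) - k0) * (c * w) ≤ 5 / 8 * K * (c * w) := by
      calc _ ≤ _ := h7
        _ = _ := by ring
    have h9 : (K : ℝ) - k0 ≤ 5 / 8 * K := le_of_mul_le_mul_right h8 (by positivity)
    linarith
  have h1 : volume (⋃ K0, B K0) = 0 := measure_iUnion_null hB0
  rw [ae_iff]
  refine measure_mono_null ?_ h1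
  intro x hx
  simp only [mem_ofPred_eq, Classical.not_imp, not_frequently, not_lt] at hx
  obtain ⟨hx0, hx1⟩ := hx
  obtain ⟨K0, hK0⟩ := eventually_atTop.mp hx1
  exact mem_iUnion.mpr ⟨K0, hx0, hK0⟩

end Pool.Agent.TH869.PM
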