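import Pool.Agent.TH869.PM.Pr

set_option autoImplicit false

/-!
# Almost every dilate of a sequence has primes very close to its terms
-/

namespace Pool.Agent.TH869.PM

open Finset Filter Topology Pool.Agent.H357R2.SI MeasureTheory

/-- the dilations `x` for which there is a prime in `(x a, x a + H]` -/
def Near (a H : ℝ) : Set ℝ := {x | ∃ p : ℕ, p.Prime ∧ x * a < p ∧ (p : ℝ) ≤ x * a + H}

theorem near_meas (a H : ℝ) : MeasurableSet (Near a H) := by
  have e : Near a H = ⋃ p : ℕ, ⋃ _ : p.Prime, {x | x * a < p ∧ (p : ℝ) ≤ x * a + H} := by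
    ext x
    simp only [Near, Set.mem_ofPred_eq, Set.mem_iUnion, exists_prop]
  rw [e]
  refine MeasurableSet.iUnion fun p => MeasurableSet.iUnion fun _ => ?_
  exact (measurableSet_lt (measurable_id.mul_const a) measurable_const).inter
    (measurableSet_le measurable_const ((measurable_id.mul_const a).add_const H))

/-- many integers close to a prime -/
theorem many (ε : ℝ) (hε : 0 < ε) (hε1 : ε ≤ 1) : ∃ c : ℝ, 0 < c ∧ ∀ u v : ℝ, 0 < u → u < v →
    ∀ᶠ a : ℝ in atTop, ∃ X Y T : ℕ, u * a < X + 1 ∧ (X : ℝ) + Y + 1 ≤ v * a ∧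
      (T : ℝ) ≤ ε * Real.log a ∧ c * (v - u) * a ≤
      (((Ico (X + 1) (X + 1 + Y)).filter (fun n => 0 < pc n (n + T))).card : ℝ) := by
  obtain ⟨C, hC1, u0, hC⟩ := Pool.Agent.W123.LR.second_moment_local (1 / 2) (by norm_num)
  have hC0 : 0 < C := by linarith
  refine ⟨ε ^ 2 / (1024 * C), by positivity, ?_⟩
  intro u v hu huv
  set w : ℝ := v - u with hw
  have hw0 : 0 < w := by rw [hw]; linarith
  have hv0 : 0 < v := hu.trans huv
  have hpi := pi_int (u + w / 4) (v - w / 4) (by linarith) (by rw [hw]; linarith)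
  -- growth facts
  have hlog := Real.tendsto_log_atTop
  have g1 : ∀ᶠ a : ℝ in atTop, Real.log a ≤ min (w / 8) 1 * a := by
    have h := Real.isLittleO_log_id_atTop.bound (show 0 < min (w / 8) 1 by positivity)
    filter_upwards [h, eventually_gt_atTop (1 : ℝ)] with a ha ha1
    rw [Real.norm_eq_abs, Real.norm_eq_abs, id, abs_of_pos (Real.log_pos ha1),
      abs_of_pos (by linarith)] at ha
    exact ha
  have g2 : ∀ᶠ a : ℝ in atTop, 8 / ε + 8 ≤ Real.log a := hlog.eventually_ge_atTop _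
  have g3 : ∀ᶠ a : ℝ in atTop, - 2 * Real.log (u / 2) ≤ Real.log a := hlog.eventually_ge_atTop _
  have g4 : ∀ᶠ a : ℝ in atTop, 16 / w + 8 / u + (u0 + 4) * (2 / w) + v * (4 / w ^ 2) ≤ a :=
    eventually_ge_atTop _
  filter_upwards [hpi, g1, g2, g3, g4, eventually_gt_atTop (1 : ℝ)] with a hpi g1 g2 g3 g4 ha1
  have ha0 : 0 < a := by linarith
  have hl0 : 0 < Real.log a := Real.log_pos ha1
  have h4a : 16 / w ≤ a := by
    have : 0 < 8 / u := by positivity
    have : 0 ≤ ((u0 : ℝ) + 4) * (2 / w) := by positivity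
    have : 0 ≤ v * (4 / w ^ 2) := by positivity
    linarith
  have h4b : 8 / u ≤ a := by
    have : 0 < 16 / w := by positivity
    have : 0 ≤ ((u0 : ℝ) + 4) * (2 / w) := by positivity
    have : 0 ≤ v * (4 / w ^ 2) := by positivity
    linarith
  have h4c : ((u0 : ℝ) + 4) * (2 / w) ≤ a := by
    have : 0 < 16 / w := by positivity
    have : 0 < 8 / u := by positivity
    have : 0 ≤ v * (4 / w ^ 2) := by positivity
    linarith
  have h4d : v * (4 / w ^ 2) ≤ a := by
    have : 0 < 16 / w := by positivity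
    have : 0 < 8 / u := by positivity
    have : 0 ≤ ((u0 : ℝ) + 4) * (2 / w) := by positivity
    linarith
  have hwa : 16 ≤ w * a := by
    rw [div_le_iff₀ hw0] at h4a
    linarith
  have hua : 8 ≤ u * a := by
    rw [div_le_iff₀ hu] at h4b
    linarith
  have hu0a : 2 * ((u0 : ℝ) + 4) ≤ w * a := by
    have h5 := mul_le_mul_of_nonneg_right h4c hw0.le
    have h6 : ((u0 : ℝ) + 4) * (2 / w) * w = 2 * ((u0 : ℝ) + 4) := by field_simp
    rw [h6] at h5
    linarith
  have hva : 4 * v ≤ w ^ 2 * a := by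
    have h0 : 0 < w ^ 2 := by positivity
    have h5 := mul_le_mul_of_nonneg_right h4d h0.le
    have h6 : v * (4 / w ^ 2) * w ^ 2 = 4 * v := by field_simp
    rw [h6] at h5
    linarith
  set X : ℕ := ⌊u * a⌋₊ with hX
  set Z : ℕ := ⌊w * a⌋₊ with hZ
  set Y : ℕ := Z - 2 with hY
  set T : ℕ := ⌊ε / 2 * Real.log a⌋₊ with hT
  have hX1 : (X : ℝ) ≤ u * a := Nat.floor_le (by positivity)
  have hX2 : u * a < X + 1 := Nat.lt_floor_add_one _
  have hZ1 : (Z : ℝ) ≤ w * a := Nat.floor_le (by positivity)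
  have hZ2 : w * a < Z + 1 := Nat.lt_floor_add_one _
  have hZ3 : 2 ≤ Z := by
    have : (14 : ℝ) < Z := by linarith
    have : 14 < Z := by exact_mod_cast this
    omega
  have hYr : (Y : ℝ) = Z - 2 := by rw [hY, Nat.cast_sub hZ3]; norm_num
  have hT1 : (T : ℝ) ≤ ε / 2 * Real.log a := Nat.floor_le (by positivity)
  have hT2 : ε / 2 * Real.log a < T + 1 := Nat.lt_floor_add_one _
  have hεl : 8 ≤ ε * Real.log a := by
    have : 8 / ε ≤ Real.log a := by linarith
    rw [div_le_iff₀ hε] at this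
    linarith
  have hT3 : ε / 4 * Real.log a ≤ T := by
    have e1 : ε / 4 * Real.log a = (ε * Real.log a) / 4 := by ring
    have e2 : ε / 2 * Real.log a = (ε * Real.log a) / 2 := by ring
    rw [e1]; rw [e2] at hT2; linarith
  have hTl : (T : ℝ) ≤ Real.log a / 2 := by
    have e2 : ε / 2 * Real.log a = (ε * Real.log a) / 2 := by ring
    have e3 : ε * Real.log a ≤ 1 * Real.log a := mul_le_mul_of_nonneg_right hε1 hl0.le
    rw [e2] at hT1; linarith
  have hm1 : Real.log a ≤ w / 8 * a := g1.trans (by gcongr; exact min_le_left _ _)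
  have hY1 : w / 2 * a ≤ Y := by
    have e1 : w / 2 * a = (w * a) / 2 := by ring
    rw [hYr, e1]; linarith
  have hY2 : (Y : ℝ) ≤ w * a := by rw [hYr]; linarith
  have hTYr : (T : ℝ) ≤ w * a / 16 := by
    have e1 : w / 8 * a = (w * a) / 8 := by ring
    rw [e1] at hm1; linarith
  have hY1' : (w * a) / 2 ≤ Y := by
    have e1 : w / 2 * a = (w * a) / 2 := by ring
    rw [e1] at hY1; exact hY1
  have hTY : T ≤ Y := by
    have : (T : ℝ) ≤ Y := by linarith
    exact_mod_cast this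
  have hu0Y : u0 ≤ Y := by
    have : (u0 : ℝ) ≤ Y := by linarith
    exact_mod_cast this
  have hX3 : 3 ≤ X := by
    have : (7 : ℝ) < X := by linarith
    have : 7 < X := by exact_mod_cast this
    omega
  have hXY : (X : ℝ) ^ (1 / 2 : ℝ) ≤ Y := by
    rw [← Real.sqrt_eq_rpow, Real.sqrt_le_left (by positivity)]
    have h1 : (w / 2 * a) ^ 2 ≤ (Y : ℝ) ^ 2 := by gcongr
    have h2 : v * a ≤ (w / 2 * a) ^ 2 := by
      have : (w / 2 * a) ^ 2 = w ^ 2 * a / 4 * a := by ring
      rw [this]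
      exact mul_le_mul_of_nonneg_right (by linarith) ha0.le
    have h3 : u * a ≤ v * a := mul_le_mul_of_nonneg_right huv.le ha0.le
    linarith
  have hTX : (T : ℝ) ≤ Real.log X := by
    have h1 : u / 2 * a ≤ X := by
      have e1 : u / 2 * a = (u * a) / 2 := by ring
      rw [e1]; linarith
    have h2 : Real.log (u / 2 * a) ≤ Real.log X := Real.log_le_log (by positivity) h1
    rw [Real.log_mul (by positivity) ha0.ne'] at h2
    linarith
  have hmom := hC X Y T hX3 hXY hu0Y hTY hTX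
  have hfm := first_moment X Y T
  have hpc : w / 4 * (a / Real.log a) ≤ (pc (X + T) (X + Y) : ℝ) := by
    have h1 : ⌊(u + w / 4) * a⌋₊ ≥ X + T := by
      apply Nat.le_floor
      push_cast
      have e1 : (u + w / 4) * a = u * a + (w * a) / 4 := by ring
      rw [e1]; linarith
    have h2 : ⌊(v - w / 4) * a⌋₊ ≤ X + Y := by
      have h3 : ((⌊(v - w / 4) * a⌋₊ : ℕ) : ℝ) ≤ (v - w / 4) * a := Nat.floor_le (by
        have : 0 < v - w / 4 := by rw [hw]; linarith
        positivity)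
      have h4 : (v - w / 4) * a ≤ (X : ℝ) + Y := by
        have e1 : (v - w / 4) * a = u * a + 3 * (w * a) / 4 := by
          have : v = u + w := by rw [hw]; ring
          rw [this]; ring
        rw [e1, hYr]; linarith
      have h5 : ((⌊(v - w / 4) * a⌋₊ : ℕ) : ℝ) ≤ ((X + Y : ℕ) : ℝ) := by
        push_cast
        linarith
      exact_mod_cast h5
    have h3 : ⌊(u + w / 4) * a⌋₊ ≤ ⌊(v - w / 4) * a⌋₊ := by
      apply Nat.floor_le_floor
      have : u + w / 4 ≤ v - w / 4 := by rw [hw]; linarith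
      gcongr
    have h4 : pc ⌊(u + w / 4) * a⌋₊ ⌊(v - w / 4) * a⌋₊ ≤ pc (X + T) (X + Y) := pc_mono h1 h2
    have h5 := pc_pi _ _ h3
    have h6 : (v - w / 4 - (u + w / 4)) / 2 = w / 4 := by rw [hw]; ring
    rw [h6] at hpi
    rw [← h5] at hpi
    exact hpi.trans (by exact_mod_cast h4)
  have hM : ε * w * a / 16 ≤ ∑ n ∈ Ico (X + 1) (X + 1 + Y), (pc n (n + T) : ℝ) := by
    have h1 : ((T * pc (X + T) (X + Y) : ℕ) : ℝ) ≤
        ((∑ n ∈ Ico (X + 1) (X + 1 + Y), pc n (n + T) : ℕ) : ℝ) := by exact_mod_cast hfm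
    push_cast at h1
    refine le_trans ?_ h1
    calc ε * w * a / 16 = (ε / 4 * Real.log a) * (w / 4 * (a / Real.log a)) := by field_simp; ring
      _ ≤ T * (pc (X + T) (X + Y) : ℝ) := by gcongr
  have hY0 : 0 < Y := by
    have : (0 : ℝ) < Y := by linarith
    exact_mod_cast this
  have hfin := many_near X Y T (ε * w * a / 16) C (by positivity) hC0 hY0 hM hmom
  refine ⟨X, Y, T, hX2, ?_, ?_, ?_⟩
  · have e1 : v * a = u * a + w * a := by rw [hw]; ring
    rw [hYr, e1]; linarith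
  · have e2 : ε / 2 * Real.log a = (ε * Real.log a) / 2 := by ring
    rw [e2] at hT1; linarith
  · refine le_trans ?_ hfin
    have hYpos : (0 : ℝ) < Y := by exact_mod_cast hY0
    rw [le_div_iff₀ (by positivity)]
    calc ε ^ 2 / (1024 * C) * w * a * (C * Y) = ε ^ 2 / 1024 * w * a * Y := by field_simp
      _ ≤ ε ^ 2 / 1024 * w * a * (w * a) := by gcongr
      _ ≤ (ε * w * a / 16) ^ 2 := by
          have h7 : 0 ≤ (ε * w * a) ^ 2 := by positivity
          have e1 : ε ^ 2 / 1024 * w * a * (w * a) = (ε * w * a) ^ 2 / 1024 := by ring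
          have e2 : (ε * w * a / 16) ^ 2 = (ε * w * a) ^ 2 / 256 := by ring
          rw [e1, e2]; linarith

theorem near_big (ε : ℝ) (hε : 0 < ε) (hε1 : ε ≤ 1) : ∃ c : ℝ, 0 < c ∧ ∀ u v : ℝ, 0 < u → u < v →
    ∀ᶠ a : ℝ in atTop,
      ENNReal.ofReal (c * (v - u)) ≤ volume (Near a (ε * Real.log a) ∩ Set.Icc u v) := by
  obtain ⟨c, hc, H⟩ := many ε hε hε1
  refine ⟨c, hc, ?_⟩
  intro u v hu huv
  filter_upwards [H u v hu huv, eventually_gt_atTop (1 : ℝ)] with a ha ha1
  obtain ⟨X, Y, T, h1, h2, h3, h4⟩ := ha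
  have ha0 : 0 < a := by linarith
  set G := (Ico (X + 1) (X + 1 + Y)).filter (fun n => 0 < pc n (n + T)) with hG
  have hsub : (⋃ m ∈ G, Set.Ico ((m : ℝ) / a) (((m : ℝ) + 1) / a)) ⊆
      Near a (ε * Real.log a) ∩ Set.Icc u v := by
    intro x hx
    rw [Set.mem_iUnion₂] at hx
    obtain ⟨m, hm, hx1, hx2⟩ := hx
    rw [hG, mem_filter, mem_Ico] at hm
    rw [div_le_iff₀ ha0] at hx1
    rw [lt_div_iff₀ ha0] at hx2
    have hm1 : (X : ℝ) + 1 ≤ m := by exact_mod_cast hm.1.1
    have hm2 : (m : ℝ) + 1 ≤ X + Y + 1 := by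
      have : m + 1 ≤ X + Y + 1 := by omega
      exact_mod_cast this
    refine ⟨?_, ?_, ?_⟩
    · have h5 := hm.2
      unfold pc at h5
      rw [card_pos] at h5
      obtain ⟨p, hp⟩ := h5
      rw [mem_filter, mem_Ioc] at hp
      have hp1 : (m : ℝ) + 1 ≤ p := by exact_mod_cast hp.1.1
      have hp2 : (p : ℝ) ≤ m + T := by exact_mod_cast hp.1.2
      exact ⟨p, hp.2, by linarith, by linarith⟩
    · by_contra hlt
      push Not at hlt
      have : x * a < u * a := mul_lt_mul_of_pos_right hlt ha0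
      linarith
    · by_contra hlt
      push Not at hlt
      have : v * a < x * a := mul_lt_mul_of_pos_right hlt ha0
      linarith
  refine le_trans ?_ (measure_mono hsub)
  rw [measure_biUnion_finset]
  · have h5 : ∀ m ∈ G, volume (Set.Ico ((m : ℝ) / a) (((m : ℝ) + 1) / a)) =
        ENNReal.ofReal (1 / a) := by
      intro m _
      rw [Real.volume_Ico]
      congr 1
      ring
    rw [sum_congr rfl h5, sum_const, nsmul_eq_mul, ← ENNReal.ofReal_natCast,
      ← ENNReal.ofReal_mul (Nat.cast_nonneg _)]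
    apply ENNReal.ofReal_le_ofReal
    rw [mul_one_div, le_div_iff₀ ha0]
    exact h4
  · intro m _ n _ hmn
    rw [Function.onFun, Set.disjoint_left]
    intro x hx hx2
    rw [Set.mem_Ico, div_le_iff₀ ha0, lt_div_iff₀ ha0] at hx hx2
    apply hmn
    have h5 : (m : ℝ) < n + 1 := by linarith [hx.1, hx2.2]
    have h6 : (n : ℝ) < m + 1 := by linarith [hx2.1, hx.2]
    have h7 : m < n + 1 := by exact_mod_cast h5
    have h8 : n < m + 1 := by exact_mod_cast h6
    omega
  · intro m _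
    exact measurableSet_Ico

/-- **Almost every dilate of a sequence `a_k → ∞` has a prime in `(x a_k, x a_k + ε log a_k]` for a
set of `k` of upper density at least `c(ε) > 0`.** -/
theorem dilates (ε : ℝ) (hε : 0 < ε) (hε1 : ε ≤ 1) : ∃ c : ℝ, 0 < c ∧ ∀ a : ℕ → ℝ,
    Tendsto a atTop atTop → ∀ᵐ x ∂(volume : Measure ℝ), 0 < x →
      ∃ᶠ K : ℕ in atTop, c * K < cnt (fun k => Near (a k) (ε * Real.log (a k))) K x := by
  obtain ⟨c, hc, H⟩ := near_big ε hε hε1
  refine ⟨c / 2, by positivity, ?_⟩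
  intro a ha
  exact ae_dense _ (fun k => near_meas _ _) c hc fun u v hu huv => ha.eventually (H u v hu huv)

end Pool.Agent.TH869.PM
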