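import Pool.Agent.TH869.PM.Ms

set_option autoImplicit false

/-!
# Almost every dilate of a sequence has many primes close to its terms
-/

namespace Pool.Agent.TH869.PM

open Finset Filter Topology Pool.Agent.H357R2.SI MeasureTheory

/-- the number of the blocks that contain a prime -/
def blk (T L n : ℕ) : ℕ := ((range L).filter (fun i => 0 < pc (n + i * T) (n + i * T + T))).card

theorem blk_le (T L n : ℕ) : blk T L n ≤ pc n (n + L * T) := by
  induction L with
  | zero => simp [blk]
  | succ L ih =>
    have h1 : pc n (n + (L + 1) * T) = pc n (n + L * T) + pc (n + L * T) (n + L * T + T) := by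
      rw [pc_add (by omega) (by omega)]
      congr 1
      ring
    rw [h1]
    unfold blk at ih ⊢
    rw [range_add_one, filter_insert]
    split_ifs with h
    · refine (card_insert_le _ _).trans ?_
      omega
    · omega

theorem blk_sum (X Y T L : ℕ) :
    L * ((Ico (X + L * T + 1) (X + 1 + Y)).filter (fun n => 0 < pc n (n + T))).card ≤
      ∑ n ∈ Ico (X + 1) (X + 1 + Y), blk T L n := by
  unfold blk
  simp only [card_filter]
  rw [sum_comm]
  calc L * ∑ n ∈ Ico (X + L * T + 1) (X + 1 + Y), (if 0 < pc n (n + T) then 1 else 0) =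
      ∑ i ∈ range L, ∑ n ∈ Ico (X + L * T + 1) (X + 1 + Y), (if 0 < pc n (n + T) then 1 else 0) := by
        rw [sum_const, card_range, smul_eq_mul]
    _ ≤ _ := by
        refine sum_le_sum fun i hi => ?_
        rw [mem_range] at hi
        have hiT : i * T ≤ L * T := Nat.mul_le_mul_right T hi.le
        rw [← card_filter, ← card_filter]
        refine card_le_card_of_injOn (fun n => n - i * T) ?_ ?_
        · intro n hn
          rw [mem_coe, mem_filter, mem_Ico] at hn
          rw [mem_coe, mem_filter, mem_Ico]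
          show (X + 1 ≤ n - i * T ∧ n - i * T < X + 1 + Y) ∧
            0 < pc (n - i * T + i * T) (n - i * T + i * T + T)
          have e : n - i * T + i * T = n := by omega
          rw [e]
          exact ⟨⟨by omega, by omega⟩, hn.2⟩
        · intro n hn n' hn' h
          rw [mem_coe, mem_filter, mem_Ico] at hn hn'
          simp only at h
          omega

theorem blk_le_L (T L n : ℕ) : blk T L n ≤ L := by
  unfold blk
  exact (card_filter_le _ _).trans (card_range L).le

/-- many integers with many primes close to them -/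
theorem many2 : ∃ c : ℝ, 0 < c ∧ ∀ u v : ℝ, 0 < u → u < v →
    ∀ᶠ a : ℝ in atTop, ∀ L : ℕ, (L : ℝ) * Real.log a ≤ (v - u) / 2 * a →
      ∃ X Y T : ℕ, u * a < X + 1 ∧ (X : ℝ) + Y + 1 ≤ v * a ∧ (T : ℝ) ≤ Real.log a ∧
      c * (v - u) * a ≤
      (((Ico (X + 1) (X + 1 + Y)).filter (fun n => c * L ≤ (pc n (n + L * T) : ℝ))).card : ℝ) := by
  obtain ⟨c, hc, H⟩ := many 1 one_pos le_rfl
  refine ⟨c / 8, by positivity, ?_⟩
  intro u v hu huv
  set w : ℝ := v - u with hw
  have hw0 : 0 < w := by rw [hw]; linarith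
  filter_upwards [H (u + w / 2) v (by linarith) (by rw [hw]; linarith),
    eventually_gt_atTop (1 : ℝ), eventually_ge_atTop (1 / u)] with a ha ha1 hau L hL
  obtain ⟨X', Y', T, h1, h2, h3, h4⟩ := ha
  have ha0 : 0 < a := by linarith
  have hl0 : 0 < Real.log a := Real.log_pos ha1
  rw [one_mul] at h3
  have hua : 1 ≤ u * a := by
    rw [div_le_iff₀ hu] at hau
    linarith
  have hLT : ((L * T : ℕ) : ℝ) ≤ w / 2 * a := by
    push_cast
    calc (L : ℝ) * T ≤ L * Real.log a := by gcongr
      _ ≤ _ := hL
  have hXL : L * T ≤ X' := by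
    have h5 : ((L * T : ℕ) : ℝ) < (X' : ℝ) + 1 := by
      have : (u + w / 2) * a = u * a + w / 2 * a := by ring
      linarith
    have h6 : L * T < X' + 1 := by exact_mod_cast h5
    omega
  have hXr : ((X' - L * T : ℕ) : ℝ) = X' - ((L * T : ℕ) : ℝ) := Nat.cast_sub hXL
  refine ⟨X' - L * T, Y' + L * T, T, ?_, ?_, h3, ?_⟩
  · rw [hXr]
    have : (u + w / 2) * a = u * a + w / 2 * a := by ring
    linarith
  · rw [hXr]
    push_cast at hLT ⊢
    linarith
  · set X : ℕ := X' - L * T with hX
    set Y : ℕ := Y' + L * T with hY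
    set S := Ico (X + 1) (X + 1 + Y) with hS
    have hsum := blk_sum X Y T L
    have e1 : X + L * T + 1 = X' + 1 := by omega
    have e2 : X + 1 + Y = X' + 1 + Y' := by omega
    rw [e1] at hsum
    have hwv : v - (u + w / 2) = w / 2 := by rw [hw]; ring
    rw [hwv] at h4
    have h5 : (L : ℝ) * (c * (w / 2) * a) ≤ ∑ n ∈ S, (blk T L n : ℝ) := by
      have h6 : ((L * ((Ico (X' + 1) (X + 1 + Y)).filter (fun n => 0 < pc n (n + T))).card : ℕ) : ℝ)
          ≤ ((∑ n ∈ Ico (X + 1) (X + 1 + Y), blk T L n : ℕ) : ℝ) := by exact_mod_cast hsum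
      push_cast at h6
      refine le_trans ?_ h6
      rw [e2]
      gcongr
    -- Markov
    have hYw : (S.card : ℝ) ≤ w * a := by
      rw [hS, Nat.card_Ico]
      have e3 : X + 1 + Y - (X + 1) = Y := by omega
      rw [e3]
      have h7 : (X : ℝ) + Y + 1 ≤ v * a := by
        rw [hX, hY, hXr]
        push_cast at hLT ⊢
        linarith
      have h8 : u * a < (X : ℝ) + 1 := by
        rw [hX, hXr]
        have : (u + w / 2) * a = u * a + w / 2 * a := by ring
        linarith
      have : w * a = v * a - u * a := by rw [hw]; ring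
      linarith
    have h9 : ∑ n ∈ S, (blk T L n : ℝ) ≤
        (L : ℝ) * (S.filter (fun n => c / 8 * L ≤ (pc n (n + L * T) : ℝ))).card +
          c / 8 * L * S.card := by
      rw [card_filter, card_eq_sum_ones]
      push_cast
      rw [mul_sum, mul_sum, ← sum_add_distrib]
      refine sum_le_sum fun n _ => ?_
      have h10 : (blk T L n : ℝ) ≤ L := by exact_mod_cast blk_le_L T L n
      have h11 : (blk T L n : ℝ) ≤ (pc n (n + L * T) : ℝ) := by exact_mod_cast blk_le T L n
      have hL0 : (0 : ℝ) ≤ L := Nat.cast_nonneg _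
      split_ifs with h12
      · have : 0 ≤ c / 8 * L * 1 := by positivity
        linarith
      · push Not at h12
        linarith
    rcases Nat.eq_zero_or_pos L with hL0 | hL0
    · have hall : S.filter (fun n => c / 8 * L ≤ (pc n (n + L * T) : ℝ)) = S := by
        apply filter_true_of_mem
        intro n _
        rw [hL0]
        simp
      rw [hall]
      -- the number of the elements of `S` is at least the number of the good ones
      have h13 : (((Ico (X' + 1) (X' + 1 + Y')).filter (fun n => 0 < pc n (n + T))).card : ℝ) ≤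
          S.card := by
        have : ((Ico (X' + 1) (X' + 1 + Y')).filter (fun n => 0 < pc n (n + T))) ⊆ S := by
          intro n hn
          rw [mem_filter, mem_Ico] at hn
          rw [hS, mem_Ico]
          omega
        exact_mod_cast card_le_card this
      refine le_trans ?_ (h4.trans h13)
      have h17 : 0 < c * w * a := by positivity
      have e3 : c / 8 * w * a = (c * w * a) / 8 := by ring
      have e4 : c * (w / 2) * a = (c * w * a) / 2 := by ring
      rw [e3, e4]; linarith
    · have hLr : (0 : ℝ) < L := by exact_mod_cast hL0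
      have h14 := h5.trans h9
      have h15 : c / 8 * L * S.card ≤ c / 8 * L * (w * a) := by gcongr
      have h16 : (L : ℝ) * (c / 8 * w * a) ≤
          L * (S.filter (fun n => c / 8 * L ≤ (pc n (n + L * T) : ℝ))).card := by
        have h17 : 0 ≤ (L : ℝ) * (c * w * a) := by positivity
        have e3 : (L : ℝ) * (c / 8 * w * a) = (L * (c * w * a)) / 8 := by ring
        have e4 : (L : ℝ) * (c * (w / 2) * a) = (L * (c * w * a)) / 2 := by ring
        have e5 : c / 8 * L * (w * a) = (L * (c * w * a)) / 8 := by ring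
        rw [e4] at h14
        rw [e5] at h15
        rw [e3]
        linarith
      exact le_of_mul_le_mul_left h16 hLr

/-- the dilations `x` for which there are at least `R` primes in `(x a, x a + H]` -/
def Many (a H R : ℝ) : Set ℝ :=
  {x | ∃ s : Finset ℕ, R ≤ (s.card : ℝ) ∧ ∀ p ∈ s, p.Prime ∧ x * a < p ∧ (p : ℝ) ≤ x * a + H}

theorem many_meas (a H R : ℝ) : MeasurableSet (Many a H R) := by
  have e : Many a H R = ⋃ s : Finset ℕ, ⋃ _ : R ≤ (s.card : ℝ), ⋂ p ∈ s,
      ({x | p.Prime} ∩ {x | x * a < p} ∩ {x | (p : ℝ) ≤ x * a + H}) := by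
    ext x
    simp only [Many, Set.mem_ofPred_eq, Set.mem_iUnion, Set.mem_iInter, Set.mem_inter_iff,
      exists_prop, and_assoc]
  rw [e]
  refine MeasurableSet.iUnion fun s => MeasurableSet.iUnion fun _ => ?_
  refine Finset.measurableSet_biInter s fun p _ => ?_
  exact ((MeasurableSet.const _).inter
    (measurableSet_lt (measurable_id.mul_const a) measurable_const)).inter
    (measurableSet_le measurable_const ((measurable_id.mul_const a).add_const H))

theorem many_big : ∃ c : ℝ, 0 < c ∧ ∀ u v : ℝ, 0 < u → u < v →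
    ∀ᶠ a : ℝ in atTop, ∀ L : ℕ, (L : ℝ) * Real.log a ≤ (v - u) / 2 * a →
      ENNReal.ofReal (c * (v - u)) ≤
        volume (Many a (L * Real.log a) (c * L) ∩ Set.Icc u v) := by
  obtain ⟨c, hc, H⟩ := many2
  refine ⟨c, hc, ?_⟩
  intro u v hu huv
  filter_upwards [H u v hu huv, eventually_gt_atTop (1 : ℝ)] with a ha ha1 L hL
  obtain ⟨X, Y, T, h1, h2, h3, h4⟩ := ha L hL
  have ha0 : 0 < a := by linarith
  set G := (Ico (X + 1) (X + 1 + Y)).filter (fun n => c * L ≤ (pc n (n + L * T) : ℝ)) with hG
  have hsub : (⋃ m ∈ G, Set.Ico ((m : ℝ) / a) (((m : ℝ) + 1) / a)) ⊆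
      Many a (L * Real.log a) (c * L) ∩ Set.Icc u v := by
    intro x hx
    rw [Set.mem_iUnion₂] at hx
    obtain ⟨m, hm, hx1, hx2⟩ := hx
    rw [hG, mem_filter, mem_Ico] at hm
    rw [div_le_iff₀ ha0] at hx1
    rw [lt_div_iff₀ ha0] at hx2
    have hm1 : (X : ℝ) + 1 ≤ m := by exact_mod_cast hm.1.1
    have hm2 : (m : ℝ) + 1 ≤ X + Y + 1 := by
      have : m + 1 ≤ X + Y + 1 := by omega
      exact_mod_cast this
    refine ⟨?_, ?_, ?_⟩
    · refine ⟨(Ioc m (m + L * T)).filter Nat.Prime, hm.2, ?_⟩
      intro p hp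
      rw [mem_filter, mem_Ioc] at hp
      have hp1 : (m : ℝ) + 1 ≤ p := by exact_mod_cast hp.1.1
      have hp2 : (p : ℝ) ≤ m + L * T := by exact_mod_cast hp.1.2
      have hp3 : (L : ℝ) * T ≤ L * Real.log a := by gcongr
      exact ⟨hp.2, by linarith, by linarith⟩
    · by_contra hlt
      push Not at hlt
      have : x * a < u * a := mul_lt_mul_of_pos_right hlt ha0
      linarith
    · by_contra hlt
      push Not at hlt
      have : v * a < x * a := mul_lt_mul_of_pos_right hlt ha0
      linarith
  refine le_trans ?_ (measure_mono hsub)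
  rw [measure_biUnion_finset]
  · have h5 : ∀ m ∈ G, volume (Set.Ico ((m : ℝ) / a) (((m : ℝ) + 1) / a)) =
        ENNReal.ofReal (1 / a) := by
      intro m _
      rw [Real.volume_Ico]
      congr 1
      ring
    rw [sum_congr rfl h5, sum_const, nsmul_eq_mul, ← ENNReal.ofReal_natCast,
      ← ENNReal.ofReal_mul (Nat.cast_nonneg _)]
    apply ENNReal.ofReal_le_ofReal
    rw [mul_one_div, le_div_iff₀ ha0]
    exact h4
  · intro m _ n _ hmn
    rw [Function.onFun, Set.disjoint_left]
    intro x hx hx2
    rw [Set.mem_Ico, div_le_iff₀ ha0, lt_div_iff₀ ha0] at hx hx2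
    apply hmn
    have h5 : (m : ℝ) < n + 1 := by linarith [hx.1, hx2.2]
    have h6 : (n : ℝ) < m + 1 := by linarith [hx2.1, hx.2]
    have h7 : m < n + 1 := by exact_mod_cast h5
    have h8 : n < m + 1 := by exact_mod_cast h6
    omega
  · intro m _
    exact measurableSet_Ico

/-- **Almost every dilate of `a_k → ∞` has at least `c L_k` primes in `(x a_k, x a_k + L_k log a_k]`
for a set of `k` of positive upper density**, if `L_k log a_k = o(a_k)`. -/
theorem dilates2 : ∃ c : ℝ, 0 < c ∧ ∀ (a : ℕ → ℝ) (L : ℕ → ℕ), Tendsto a atTop atTop →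
    Tendsto (fun k => (L k : ℝ) * Real.log (a k) / a k) atTop (𝓝 0) →
      ∀ᵐ x ∂(volume : Measure ℝ), 0 < x → ∃ᶠ K : ℕ in atTop,
        c * K < cnt (fun k => Many (a k) (L k * Real.log (a k)) (c * L k)) K x := by
  obtain ⟨c, hc, H⟩ := many_big
  have hmono : ∀ a b R R' : ℝ, R' ≤ R → Many a b R ⊆ Many a b R' := by
    intro a b R R' h x hx
    obtain ⟨s, h1, h2⟩ := hx
    exact ⟨s, h.trans h1, h2⟩
  refine ⟨c / 2, by positivity, ?_⟩
  intro a L ha hL
  have h1 := ae_dense (fun k => Many (a k) (L k * Real.log (a k)) (c / 2 * L k))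
    (fun k => many_meas _ _ _) c hc (by
      intro u v hu huv
      have h2 : ∀ᶠ k in atTop, (L k : ℝ) * Real.log (a k) / a k < (v - u) / 2 :=
        hL.eventually (gt_mem_nhds (by linarith))
      filter_upwards [ha.eventually (H u v hu huv), h2, ha.eventually_gt_atTop 0] with k h3 h4 h5
      have h6 := h3 (L k) (by
        rw [div_lt_iff₀ h5] at h4
        exact h4.le)
      refine h6.trans (measure_mono (Set.inter_subset_inter_left _ (hmono _ _ _ _ ?_)))
      have h8 : (0 : ℝ) ≤ L k := Nat.cast_nonneg _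
      have h9 : 0 ≤ c * L k := by positivity
      have e3 : c / 2 * L k = (c * L k) / 2 := by ring
      show c / 2 * (L k : ℝ) ≤ c * L k
      rw [e3]; linarith)
  exact h1

end Pool.Agent.TH869.PM
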