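import Pool.Agent.W123.LR.Fin
import Pool.Agent.Helper799.PNT
import Pool.Agent.TH869.PM.Ld

set_option autoImplicit false

/-!
# Intervals of length `ε log a` that contain primes
-/

namespace Pool.Agent.TH869.PM

open Finset Filter Topology Pool.Agent.H357R2.SI

theorem log_ratio (w : ℝ) (hw : 0 < w) :
    Tendsto (fun a : ℝ => Real.log a / Real.log (w * a)) atTop (𝓝 1) := by
  have h1 : Tendsto (fun a : ℝ => Real.log w / Real.log a) atTop (𝓝 0) :=
    Real.tendsto_log_atTop.const_div_atTop _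
  have h2 : Tendsto (fun a : ℝ => 1 / (1 + Real.log w / Real.log a)) atTop (𝓝 (1 / (1 + 0))) :=
    tendsto_const_nhds.div (tendsto_const_nhds.add h1) (by norm_num)
  rw [add_zero, div_one] at h2
  refine h2.congr' ?_
  filter_upwards [eventually_gt_atTop (1 : ℝ), eventually_gt_atTop (1 / w)] with a ha ha2
  have hl : 0 < Real.log a := Real.log_pos ha
  have hwa : 1 < w * a := by
    rw [div_lt_iff₀ hw] at ha2
    linarith
  have hl2 : 0 < Real.log (w * a) := Real.log_pos hwa
  have e : Real.log (w * a) = Real.log w + Real.log a := Real.log_mul hw.ne' (by linarith)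
  have h5 : 1 + Real.log w / Real.log a = (Real.log w + Real.log a) / Real.log a := by
    rw [add_div, div_self hl.ne', add_comm]
  rw [e, h5, one_div_div]

theorem pi_lin (w : ℝ) (hw : 0 < w) :
    Tendsto (fun a : ℝ => (Nat.primeCounting ⌊w * a⌋₊ : ℝ) * Real.log a / a) atTop (𝓝 w) := by
  have h1 : Tendsto (fun a : ℝ => w * a) atTop atTop := tendsto_id.const_mul_atTop hw
  have h2 := Pool.Agent.Helper799.PNT.pi_tendsto.comp h1
  have h3 := (h2.mul (log_ratio w hw)).mul_const w
  rw [mul_one, one_mul] at h3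
  refine h3.congr' ?_
  filter_upwards [eventually_gt_atTop (0 : ℝ), eventually_gt_atTop (1 / w)] with a ha ha2
  have hwa : 1 < w * a := by
    rw [div_lt_iff₀ hw] at ha2
    linarith
  have hl2 : 0 < Real.log (w * a) := Real.log_pos hwa
  simp only [Function.comp_apply]
  field_simp

theorem pi_int (u v : ℝ) (hu : 0 < u) (huv : u < v) : ∀ᶠ a : ℝ in atTop,
    (v - u) / 2 * (a / Real.log a) ≤
      (Nat.primeCounting ⌊v * a⌋₊ : ℝ) - Nat.primeCounting ⌊u * a⌋₊ := by
  have h1 := (pi_lin v (hu.trans huv)).sub (pi_lin u hu)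
  have h2 := h1.eventually (lt_mem_nhds (show (v - u) / 2 < v - u by linarith))
  filter_upwards [h2, eventually_gt_atTop (1 : ℝ)] with a h3 ha
  have hl : 0 < Real.log a := Real.log_pos ha
  have ha0 : 0 < a := by linarith
  have h4 : (Nat.primeCounting ⌊v * a⌋₊ : ℝ) * Real.log a / a -
      (Nat.primeCounting ⌊u * a⌋₊ : ℝ) * Real.log a / a =
      ((Nat.primeCounting ⌊v * a⌋₊ : ℝ) - Nat.primeCounting ⌊u * a⌋₊) * (Real.log a / a) := by
    ring
  rw [h4] at h3
  have h5 : a / Real.log a * (Real.log a / a) = 1 := by field_simp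
  have h6 : 0 < Real.log a / a := by positivity
  refine le_of_mul_le_mul_right ?_ h6
  rw [mul_assoc, h5, mul_one]
  exact h3.le

theorem pc_pi (a b : ℕ) (h : a ≤ b) : (pc a b : ℝ) =
    (Nat.primeCounting b : ℝ) - Nat.primeCounting a := by
  have h1 : pc a b + Nat.primeCounting a = Nat.primeCounting b := by
    rw [Nat.primeCounting, Nat.primeCounting, Nat.primeCounting', Nat.count_eq_card_filter_range,
      Nat.count_eq_card_filter_range, pc, ← card_union_of_disjoint]
    · congr 1
      ext x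
      simp only [mem_union, mem_filter, mem_Ioc, mem_range]
      constructor
      · rintro (⟨⟨h1, h2⟩, h3⟩ | ⟨h1, h2⟩)
        · exact ⟨by omega, h3⟩
        · exact ⟨by omega, h2⟩
      · rintro ⟨h1, h2⟩
        by_cases h3 : x < a + 1
        · exact Or.inr ⟨h3, h2⟩
        · exact Or.inl ⟨⟨by omega, by omega⟩, h2⟩
    · rw [disjoint_left]
      intro x hx hx2
      rw [mem_filter, mem_Ioc] at hx
      rw [mem_filter, mem_range] at hx2
      omega
  rw [← h1]
  push_cast
  ring

theorem pc_mono {a b c d : ℕ} (h1 : c ≤ a) (h2 : b ≤ d) : pc a b ≤ pc c d := by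
  unfold pc
  apply card_le_card
  intro x hx
  rw [mem_filter, mem_Ioc] at hx ⊢
  exact ⟨⟨by omega, by omega⟩, hx.2⟩

theorem pc_shift (m T : ℕ) : pc m (m + T) =
    ∑ j ∈ Ioc 0 T, if (m + j).Prime then 1 else 0 := by
  unfold pc
  rw [card_filter]
  refine sum_nbij' (fun x => x - m) (fun j => m + j) ?_ ?_ ?_ ?_ ?_
  · intro x hx
    rw [mem_Ioc] at hx ⊢
    omega
  · intro j hj
    rw [mem_Ioc] at hj ⊢
    omega
  · intro x hx
    rw [mem_Ioc] at hx
    show m + (x - m) = x
    omega
  · intro j hj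
    show m + j - m = j
    omega
  · intro x hx
    rw [mem_Ioc] at hx
    have : m + (x - m) = x := by omega
    rw [this]

theorem first_moment (X Y T : ℕ) :
    T * pc (X + T) (X + Y) ≤ ∑ n ∈ Ico (X + 1) (X + 1 + Y), pc n (n + T) := by
  simp only [pc_shift]
  rw [sum_comm]
  calc T * pc (X + T) (X + Y) = ∑ j ∈ Ioc 0 T, pc (X + T) (X + Y) := by
        rw [sum_const, Nat.card_Ioc, smul_eq_mul, Nat.sub_zero]
    _ ≤ _ := by
        refine sum_le_sum fun j hj => ?_
        rw [mem_Ioc] at hj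
        have h1 : pc (X + T) (X + Y) ≤ pc (X + j) (X + Y + j) := pc_mono (by omega) (by omega)
        refine h1.trans (le_of_eq ?_)
        unfold pc
        rw [card_filter]
        refine sum_nbij' (fun x => x - j) (fun n => n + j) ?_ ?_ ?_ ?_ ?_
        · intro x hx
          rw [mem_Ioc] at hx
          rw [mem_Ico]
          omega
        · intro n hn
          rw [mem_Ico] at hn
          rw [mem_Ioc]
          omega
        · intro x hx
          rw [mem_Ioc] at hx
          show x - j + j = x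
          omega
        · intro n hn
          show n + j - j = n
          omega
        · intro x hx
          rw [mem_Ioc] at hx
          have : x - j + j = x := by omega
          rw [this]

theorem many_near (X Y T : ℕ) (M C : ℝ) (hM : 0 ≤ M) (hC : 0 < C) (hY : 0 < Y)
    (h1 : M ≤ ∑ n ∈ Ico (X + 1) (X + 1 + Y), (pc n (n + T) : ℝ))
    (h2 : ∑ n ∈ Ico (X + 1) (X + 1 + Y), ((pc n (n + T) : ℝ)) ^ 2 ≤ C * Y) :
    M ^ 2 / (C * Y) ≤
      (((Ico (X + 1) (X + 1 + Y)).filter (fun n => 0 < pc n (n + T))).card : ℝ) := by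
  have hYr : (0 : ℝ) < Y := by exact_mod_cast hY
  rw [div_le_iff₀ (by positivity)]
  have h3 := sum_mul_sq_le_sq_mul_sq (Ico (X + 1) (X + 1 + Y))
    (fun n => if 0 < pc n (n + T) then (1 : ℝ) else 0) (fun n => (pc n (n + T) : ℝ))
  have h4 : ∑ n ∈ Ico (X + 1) (X + 1 + Y),
      (if 0 < pc n (n + T) then (1 : ℝ) else 0) * (pc n (n + T) : ℝ) =
      ∑ n ∈ Ico (X + 1) (X + 1 + Y), (pc n (n + T) : ℝ) := by
    refine sum_congr rfl fun n _ => ?_
    by_cases h : 0 < pc n (n + T)
    · rw [if_pos h, one_mul]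
    · rw [if_neg h, zero_mul]
      have : pc n (n + T) = 0 := by omega
      rw [this, Nat.cast_zero]
  have h5 : ∑ n ∈ Ico (X + 1) (X + 1 + Y), (if 0 < pc n (n + T) then (1 : ℝ) else 0) ^ 2 =
      (((Ico (X + 1) (X + 1 + Y)).filter (fun n => 0 < pc n (n + T))).card : ℝ) := by
    rw [card_filter]
    push_cast
    refine sum_congr rfl fun n _ => ?_
    split_ifs <;> norm_num
  rw [h4, h5] at h3
  calc M ^ 2 ≤ (∑ n ∈ Ico (X + 1) (X + 1 + Y), (pc n (n + T) : ℝ)) ^ 2 := by gcongr
    _ ≤ _ := h3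
    _ ≤ _ := by gcongr

end Pool.Agent.TH869.PM
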